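import Pool.Agent.Helper87.UE.NF
import Pool.Agent.Helper8.UnitSep

/-!
# The unit equation over finitely generated domains of characteristic zero

Siegel, Mahler, Parry, Lang: `u + v = 1` has finitely many solutions in units.
-/

set_option autoImplicit false

namespace Pool.Agent.Helper87.UE

open NumberField Pool.Agent.Helper85.Sub Pool.Agent.Helper10.Sub

lemma dvd_prod_pow (M : ℕ) (hM : M ≠ 0) : M ∣ (∏ t : M.primeFactors, (t : ℕ)) ^ M := by
  have h1 : ∏ t : M.primeFactors, (t : ℕ) = ∏ q ∈ M.primeFactors, q :=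
    Finset.prod_coe_sort M.primeFactors (fun q => q)
  rw [h1, ← Finset.prod_pow]
  conv_lhs => rw [← Nat.prod_factorization_pow_eq_self hM]
  rw [Finsupp.prod, Nat.support_factorization]
  exact Finset.prod_dvd_prod_of_dvd _ _ fun q _ =>
    pow_dvd_pow q (Nat.factorization_lt q hM).le

/-- the unit equation in a number field -/
theorem sunit_nat {K : Type} [Field K] [NumberField K] (M : ℕ) (hM : M ≠ 0) :
    {u : K | u ≠ 0 ∧ 1 - u ≠ 0 ∧ (∃ n : ℕ, IsIntegral ℤ ((M : K) ^ n * u)) ∧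
      (∃ n : ℕ, IsIntegral ℤ ((M : K) ^ n * u⁻¹)) ∧
      (∃ n : ℕ, IsIntegral ℤ ((M : K) ^ n * (1 - u))) ∧
      (∃ n : ℕ, IsIntegral ℤ ((M : K) ^ n * (1 - u)⁻¹))}.Finite := by
  have hfact : ∀ t : M.primeFactors, Fact ((t : ℕ)).Prime := fun t =>
    ⟨Nat.prime_of_mem_primeFactors t.2⟩
  have hp : Function.Injective (fun t : M.primeFactors => (t : ℕ)) := Subtype.val_injective
  obtain ⟨c, hc⟩ := dvd_prod_pow M hM
  have key : ∀ x : K, (∃ n : ℕ, IsIntegral ℤ ((M : K) ^ n * x)) →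
      ∃ n : ℕ, IsIntegral ℤ ((pprod (fun t : M.primeFactors => (t : ℕ)) : K) ^ n * x) := by
    rintro x ⟨n, hn⟩
    refine ⟨M * n, ?_⟩
    have h1 : ((pprod (fun t : M.primeFactors => (t : ℕ)) : ℕ) : K) ^ M = (M : K) * (c : K) := by
      rw [← Nat.cast_pow, ← Nat.cast_mul, ← hc]
      rfl
    rw [pow_mul, h1, mul_pow]
    have h2 : (M : K) ^ n * (c : K) ^ n * x = ((c : ℤ) : K) ^ n * ((M : K) ^ n * x) := by
      push_cast
      ring
    rw [h2]
    exact (isIntegral_algebraMap.pow n).mul hn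
  refine (sunit_T (K := K) (T := M.primeFactors) (p := fun t => (t : ℕ)) hp).subset ?_
  rintro u ⟨h0, h1, h2, h3, h4, h5⟩
  exact ⟨h0, h1, key _ h2, key _ h3, key _ h4, key _ h5⟩

/-- the unit equation in rings of `S`-integers -/
theorem sunit_away (K : Type) [Field K] [NumberField K] (M : ℕ) (hM : M ≠ 0) :
    {x : (Localization.Away ((M : ℕ) : 𝓞 K))ˣ |
      IsUnit (1 - (x : Localization.Away ((M : ℕ) : 𝓞 K)))}.Finite := by
  have hM1 : ((M : ℕ) : 𝓞 K) ≠ 0 := by exact_mod_cast hM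
  have hM2 : (algebraMap (𝓞 K) K) ((M : ℕ) : 𝓞 K) = (M : K) := by simp
  have hunit : IsUnit ((algebraMap (𝓞 K) K) ((M : ℕ) : 𝓞 K)) := by
    rw [hM2]
    exact IsUnit.mk0 _ (by exact_mod_cast hM)
  let g : Localization.Away ((M : ℕ) : 𝓞 K) →+* K :=
    IsLocalization.Away.lift ((M : ℕ) : 𝓞 K) hunit
  have hg : ∀ a : 𝓞 K, g (algebraMap (𝓞 K) _ a) = algebraMap (𝓞 K) K a := fun a =>
    IsLocalization.Away.lift_eq _ hunit a
  have hinjR : Function.Injective (algebraMap (𝓞 K) (Localization.Away ((M : ℕ) : 𝓞 K))) :=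
    IsLocalization.injective _ (powers_le_nonZeroDivisors_of_noZeroDivisors hM1)
  have hsurj : ∀ z : Localization.Away ((M : ℕ) : 𝓞 K), ∃ (n : ℕ) (a : 𝓞 K),
      z * algebraMap (𝓞 K) _ ((M : ℕ) : 𝓞 K) ^ n = algebraMap (𝓞 K) _ a := fun z =>
    IsLocalization.Away.surj ((M : ℕ) : 𝓞 K) z
  have hinj : Function.Injective g := by
    rw [injective_iff_map_eq_zero]
    intro z hz
    obtain ⟨n, a, ha⟩ := hsurj z
    have h1 : algebraMap (𝓞 K) K a = 0 := by
      rw [← hg, ← ha, map_mul, hz, zero_mul]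
    have h2 : a = 0 := (map_eq_zero_iff _ RingOfIntegers.coe_injective).1 h1
    rw [h2, map_zero] at ha
    have h3 : IsUnit (algebraMap (𝓞 K) (Localization.Away ((M : ℕ) : 𝓞 K)) ((M : ℕ) : 𝓞 K) ^ n) :=
      (IsLocalization.Away.algebraMap_isUnit _).pow n
    exact (h3.mul_left_eq_zero).1 ha
  have hint : ∀ z : Localization.Away ((M : ℕ) : 𝓞 K), ∃ n : ℕ,
      IsIntegral ℤ ((M : K) ^ n * g z) := by
    intro z
    obtain ⟨n, a, ha⟩ := hsurj z
    refine ⟨n, ?_⟩
    have h1 : (M : K) ^ n * g z = algebraMap (𝓞 K) K a := by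
      rw [← hg, ← ha, map_mul, map_pow, hg, hM2, mul_comm]
    rw [h1]
    exact RingOfIntegers.isIntegral_coe a
  have hinj2 : Function.Injective (fun x : (Localization.Away ((M : ℕ) : 𝓞 K))ˣ =>
      g (x : Localization.Away ((M : ℕ) : 𝓞 K))) := fun x y h => Units.ext (hinj h)
  refine Set.Finite.subset (Set.Finite.preimage hinj2.injOn (sunit_nat (K := K) M hM)) ?_
  intro x hx
  obtain ⟨y, hy⟩ : IsUnit (1 - (x : Localization.Away ((M : ℕ) : 𝓞 K))) := hx
  have h1 : (g x) * g ((x⁻¹ : (Localization.Away ((M : ℕ) : 𝓞 K))ˣ) :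
      Localization.Away ((M : ℕ) : 𝓞 K)) = 1 := by
    rw [← map_mul, Units.mul_inv, map_one]
  have h2 : (1 - g x) * g ((y⁻¹ : (Localization.Away ((M : ℕ) : 𝓞 K))ˣ) :
      Localization.Away ((M : ℕ) : 𝓞 K)) = 1 := by
    have h3 : 1 - g x = g y := by rw [hy, map_sub, map_one]
    rw [h3, ← map_mul, Units.mul_inv, map_one]
  refine ⟨left_ne_zero_of_mul_eq_one h1, left_ne_zero_of_mul_eq_one h2, hint _, ?_, ?_, ?_⟩
  · rw [inv_eq_of_mul_eq_one_right h1]
    exact hint _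
  · have h3 : 1 - g x = g y := by rw [hy, map_sub, map_one]
    rw [h3]
    exact hint _
  · rw [inv_eq_of_mul_eq_one_right h2]
    exact hint _

/-- THE UNIT EQUATION over finitely generated domains of characteristic zero. -/
theorem unit_equation (R : Type) [CommRing R] [IsDomain R] [Algebra.FiniteType ℤ R]
    [CharZero R] : {x : Rˣ | IsUnit (1 - (x : R))}.Finite := by
  obtain ⟨I, hI, k, hk, hnf, M, hM, φ, hφ⟩ := Pool.Agent.Helper8.UnitSep.exists_family R
  let Φ : Rˣ → ∀ i, (Localization.Away ((M i : ℕ) : 𝓞 (k i)))ˣ := fun x i =>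
    Units.map (φ i : R →* Localization.Away ((M i : ℕ) : 𝓞 (k i))) x
  have hΦ : Function.Injective Φ := by
    intro x y h
    have h1 : x * y⁻¹ = 1 := by
      apply hφ
      intro i
      have h2 : Units.map (φ i : R →* Localization.Away ((M i : ℕ) : 𝓞 (k i))) x =
          Units.map (φ i : R →* Localization.Away ((M i : ℕ) : 𝓞 (k i))) y := congrFun h i
      have h3 : Units.map (φ i : R →* Localization.Away ((M i : ℕ) : 𝓞 (k i))) (x * y⁻¹) = 1 := by
        rw [map_mul, map_inv, h2, mul_inv_cancel]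
      exact congrArg Units.val h3
    exact mul_inv_eq_one.1 h1
  have hfin : {f : ∀ i, (Localization.Away ((M i : ℕ) : 𝓞 (k i)))ˣ | ∀ i, f i ∈
      {x : (Localization.Away ((M i : ℕ) : 𝓞 (k i)))ˣ |
        IsUnit (1 - (x : Localization.Away ((M i : ℕ) : 𝓞 (k i))))}}.Finite :=
    Set.Finite.pi' fun i => sunit_away (k i) (M i) (hM i)
  refine Set.Finite.subset (Set.Finite.preimage hΦ.injOn hfin) ?_
  intro x hx i
  have h1 : IsUnit (φ i (1 - (x : R))) := IsUnit.map (φ i) hx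
  rw [map_sub, map_one] at h1
  exact h1

/-- The unit equation in a finitely generated subring of a field of characteristic zero. -/
theorem unit_equation_field {K : Type} [Field K] [CharZero K] (A : Subalgebra ℤ K) (hA : A.FG) :
    {u : K | u ≠ 0 ∧ 1 - u ≠ 0 ∧ u ∈ A ∧ u⁻¹ ∈ A ∧ 1 - u ∈ A ∧ (1 - u)⁻¹ ∈ A}.Finite := by
  have hft : Algebra.FiniteType ℤ A := (Subalgebra.fg_iff_finiteType A).1 hA
  have hch : CharZero A := ⟨fun m n h => by
    have h1 := congrArg (Subtype.val) h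
    simpa using h1⟩
  refine ((unit_equation A).image (fun x : Aˣ => ((x : A) : K))).subset ?_
  rintro u ⟨h0, h1, h2, h3, h4, h5⟩
  refine ⟨⟨⟨u, h2⟩, ⟨u⁻¹, h3⟩, Subtype.ext (mul_inv_cancel₀ h0),
    Subtype.ext (inv_mul_cancel₀ h0)⟩, ?_, rfl⟩
  exact ⟨⟨⟨1 - u, h4⟩, ⟨(1 - u)⁻¹, h5⟩, Subtype.ext (mul_inv_cancel₀ h1),
    Subtype.ext (inv_mul_cancel₀ h1)⟩, rfl⟩

end Pool.Agent.Helper87.UE
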