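import Pool.Agent.Helper11.TS.SubA
import Pool.Agent.Helper11.TS.PF

/-!
# The unit equation over number fields

`u + v = 1` has finitely many solutions in `S`-units of a number field: the Subspace theorem in
dimension two.
-/

set_option autoImplicit false

namespace Pool.Agent.Helper87.UE

open NumberField Pool.Agent.Helper85.Sub Pool.Agent.Helper10.Sub Finset

section mats
variable {F : Type*} [Field F]

/-- two of the three forms `X`, `Y`, `X + Y` -/
def mat (F : Type*) [Field F] (m : Fin 3) : Matrix (Fin 2) (Fin 2) F :=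
  if m = 0 then !![0, 1; 1, 1] else if m = 1 then !![1, 0; 1, 1] else !![1, 0; 0, 1]

lemma mat_det (m : Fin 3) : (mat F m).det ≠ 0 := by
  unfold mat
  split_ifs <;> simp [Matrix.det_fin_two_of]

lemma mat_alg {F : Type*} [Field F] [Algebra ℚ F] (m : Fin 3) (i j : Fin 2) :
    IsAlgebraic ℚ (mat F m i j) := by
  have h0 : IsAlgebraic ℚ (0 : F) := isAlgebraic_zero
  have h1 : IsAlgebraic ℚ (1 : F) := isAlgebraic_one
  unfold mat
  split_ifs <;> fin_cases i <;> fin_cases j <;> simp [h0, h1]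

/-- the sizes of the two forms -/
noncomputable def val (m : Fin 3) (A B : ℝ) : Fin 2 → ℝ :=
  if m = 0 then ![B, 1] else if m = 1 then ![A, 1] else ![A, B]

/-- the index of the largest form -/
noncomputable def kind (A B : ℝ) : Fin 3 :=
  if A ≤ 1 ∧ B ≤ 1 then 2 else if B ≤ A then 0 else 1

lemma prod_val (A B : ℝ) (hA : 0 < A) (hB : 0 < B) :
    ∏ i, val (kind A B) A B i = A * B * (max (max A B) 1)⁻¹ := by
  unfold val kind
  rw [Fin.prod_univ_two]
  by_cases h1 : A ≤ 1 ∧ B ≤ 1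
  · have h2 : max (max A B) 1 = 1 := max_eq_right (max_le h1.1 h1.2)
    simp [h1]
  · by_cases h2 : B ≤ A
    · have h3 : 1 ≤ A := by
        by_contra h
        push Not at h
        exact h1 ⟨h.le, h2.trans h.le⟩
      have h4 : max (max A B) 1 = A := by rw [max_eq_left h2, max_eq_left h3]
      simp only [h1, h2, if_false, if_true]
      rw [h4]
      simp
      field_simp
    · push Not at h2
      have h3 : 1 ≤ B := by
        by_contra h
        push Not at h
        exact h1 ⟨h2.le.trans h.le, h.le⟩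
      have h4 : max (max A B) 1 = B := by rw [max_eq_right h2.le, max_eq_left h3]
      simp only [h1, not_le.2 h2, if_false]
      rw [h4]
      simp
      field_simp

lemma val_mem (m : Fin 3) (A B : ℝ) (i : Fin 2) :
    val m A B i = A ∨ val m A B i = B ∨ val m A B i = 1 := by
  unfold val
  split_ifs <;> fin_cases i <;> simp

lemma val_norm {F : Type*} [NormedField F] (m : Fin 3) (u v : F) (h : u + v = 1) (i : Fin 2) :
    ‖∑ j, mat F m i j * ![u, v] j‖ ≤ val m ‖u‖ ‖v‖ i := by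
  unfold mat val
  rw [Fin.sum_univ_two]
  split_ifs <;> fin_cases i <;> simp [h]

end mats

lemma lower_bound {I : Type*} [Fintype I] [DecidableEq I] (A M : I → ℝ) (hA : ∀ i, 0 < A i)
    (hAM : ∀ i, A i ≤ M i) (hM : ∀ i, 1 ≤ M i) (h : ∏ i, A i = 1) (i : I) :
    (∏ i, M i)⁻¹ ≤ A i := by
  have hP : 0 < ∏ i, M i := Finset.prod_pos fun j _ => one_pos.trans_le (hM j)
  rw [inv_le_iff_one_le_mul₀ hP]
  have h1 : A i * ∏ j ∈ univ.erase i, A j = 1 := by
    rw [Finset.mul_prod_erase _ _ (mem_univ i), h]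
  have h2 : ∏ j ∈ univ.erase i, A j ≤ ∏ j ∈ univ.erase i, M j :=
    Finset.prod_le_prod (fun j _ => (hA j).le) fun j _ => hAM j
  have h3 : ∏ j ∈ univ.erase i, M j ≤ ∏ j, M j :=
    Finset.prod_le_prod_of_subset_of_one_le (Finset.erase_subset _ _)
      (fun j _ => zero_le_one.trans (hM j)) fun j _ _ => hM j
  rw [← h1]
  exact mul_le_mul_of_nonneg_left (h2.trans h3) (hA i).le

lemma upper_bound {I : Type*} [Fintype I] [DecidableEq I] (M : I → ℝ)
    (hM : ∀ i, 1 ≤ M i) (i : I) : M i ≤ ∏ i, M i := by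
  have h3 : ∏ j ∈ ({i} : Finset I), M j ≤ ∏ j, M j :=
    Finset.prod_le_prod_of_subset_of_one_le (Finset.subset_univ _)
      (fun j _ => zero_le_one.trans (hM j)) fun j _ _ => hM j
  simpa using h3

open Module in
lemma subsingleton_of_ne_top {K : Type*} [Field K] (W : Submodule K (Fin 2 → K)) (hW : W ≠ ⊤) :
    {u : K | ![u, 1 - u] ∈ W}.Subsingleton := by
  intro u hu u' hu'
  by_contra hne
  apply hW
  have h1 : u - u' ≠ 0 := sub_ne_zero.2 hne
  have h2 : (![1, -1] : Fin 2 → K) ∈ W := by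
    have h3 := W.smul_mem (u - u')⁻¹ (W.sub_mem hu hu')
    convert h3 using 1
    funext i
    fin_cases i
    · simp [h1]
    · simp
      field_simp
      ring
  have h3 : (![0, 1] : Fin 2 → K) ∈ W := by
    have h4 := W.sub_mem hu (W.smul_mem u h2)
    convert h4 using 1
    funext i
    fin_cases i <;> simp
  have h4 : (![1, 0] : Fin 2 → K) ∈ W := by
    have h5 := W.add_mem h2 h3
    convert h5 using 1
    funext i
    fin_cases i <;> simp
  rw [eq_top_iff]
  intro z _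
  have h5 := W.add_mem (W.smul_mem (z 0) h4) (W.smul_mem (z 1) h3)
  convert h5 using 1
  funext i
  fin_cases i <;> simp

theorem sunit_T {K : Type} [Field K] [NumberField K] {T : Type} [Fintype T] {p : T → ℕ}
    [∀ t, Fact (p t).Prime] (hp : Function.Injective p) :
    {u : K | u ≠ 0 ∧ 1 - u ≠ 0 ∧ (∃ n : ℕ, IsIntegral ℤ ((pprod p : K) ^ n * u)) ∧
      (∃ n : ℕ, IsIntegral ℤ ((pprod p : K) ^ n * u⁻¹)) ∧
      (∃ n : ℕ, IsIntegral ℤ ((pprod p : K) ^ n * (1 - u))) ∧
      (∃ n : ℕ, IsIntegral ℤ ((pprod p : K) ^ n * (1 - u)⁻¹))}.Finite := by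
  classical
  let I : Type := (K →+* ℂ) ⊕ (Σ t, K →+* FF K (p t))
  let nv : I → K → ℝ := fun s x => Sum.elim (fun σ => ‖σ x‖) (fun s => ‖s.2 x‖) s
  have key : ∀ π : I → Fin 3, _ := fun π =>
    Pool.Agent.Helper11.TS.subspaceT (K := K) hp 2 le_rfl 1 1 one_pos
      (fun σ => mat ℂ (π (Sum.inl σ))) (fun t σ => mat (FF K (p t)) (π (Sum.inr ⟨t, σ⟩)))
      (fun σ i j => mat_alg _ i j) (fun t σ i j => mat_alg _ i j)
      (fun σ => mat_det _) (fun t σ => mat_det _)
  choose 𝒲 h𝒲 hmain using key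
  refine Set.Finite.subset (s := ⋃ π : I → Fin 3, ⋃ W ∈ 𝒲 π, {u : K | ![u, 1 - u] ∈ W}) ?_ ?_
  · refine Set.finite_iUnion fun π => (𝒲 π).finite_toSet.biUnion fun W hW => ?_
    exact (subsingleton_of_ne_top W (h𝒲 π W hW)).finite
  intro u hu
  obtain ⟨hu0, hv0, hu1, hu2, hv1, hv2⟩ := hu
  set v := 1 - u with hv
  have huv : u + v = 1 := by rw [hv]; ring
  let A : I → ℝ := fun s => nv s u
  let B : I → ℝ := fun s => nv s v
  let M : I → ℝ := fun s => max (max (A s) (B s)) 1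
  have hnvpos : ∀ s x, x ≠ 0 → 0 < nv s x := by
    intro s x hx
    cases s <;> simp [nv, hx]
  have hA : ∀ s, 0 < A s := fun s => hnvpos s u hu0
  have hB : ∀ s, 0 < B s := fun s => hnvpos s v hv0
  have hM : ∀ s, 1 ≤ M s := fun s => le_max_right _ _
  have hAM : ∀ s, A s ≤ M s := fun s => (le_max_left _ _).trans (le_max_left _ _)
  have hBM : ∀ s, B s ≤ M s := fun s => (le_max_right _ _).trans (le_max_left _ _)
  have hprod : ∀ x : K, ∏ s, nv s x =
      (∏ σ : K →+* ℂ, ‖σ x‖) * ∏ t, ∏ σ : K →+* FF K (p t), ‖σ x‖ := by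
    intro x
    rw [Fintype.prod_sum_type, Fintype.prod_sigma]
    rfl
  have hPA : ∏ s, A s = 1 :=
    (hprod u).trans (Pool.Agent.Helper11.TS.prod_one hp u hu0 hu1 hu2)
  have hPB : ∏ s, B s = 1 :=
    (hprod v).trans (Pool.Agent.Helper11.TS.prod_one hp v hv0 hv1 hv2)
  set Q : ℝ := ∏ s, M s with hQ
  have hQ1 : 1 ≤ Q := Finset.one_le_prod fun s _ => hM s
  have hQ0 : 0 < Q := one_pos.trans_le hQ1
  let π : I → Fin 3 := fun s => kind (A s) (B s)
  let a : I → Fin 2 → ℝ := fun s => val (π s) (A s) (B s)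
  have hbd : ∀ s i, Q ^ (-(1 : ℝ)) ≤ a s i ∧ a s i ≤ Q ^ (1 : ℝ) := by
    intro s i
    rw [Real.rpow_neg hQ0.le, Real.rpow_one]
    rcases val_mem (π s) (A s) (B s) i with h | h | h
    · change _ ≤ val _ _ _ i ∧ val _ _ _ i ≤ _
      rw [h]
      exact ⟨lower_bound A M hA hAM hM hPA s, (hAM s).trans (upper_bound M hM s)⟩
    · change _ ≤ val _ _ _ i ∧ val _ _ _ i ≤ _
      rw [h]
      exact ⟨lower_bound B M hB hBM hM hPB s, (hBM s).trans (upper_bound M hM s)⟩
    · change _ ≤ val _ _ _ i ∧ val _ _ _ i ≤ _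
      rw [h]
      exact ⟨inv_le_one_of_one_le₀ hQ1, hQ1⟩
  have hpr : ∏ s, ∏ i, a s i = Q⁻¹ := by
    have h1 : ∀ s, ∏ i, a s i = A s * B s * (M s)⁻¹ := fun s => prod_val _ _ (hA s) (hB s)
    rw [Finset.prod_congr rfl fun s _ => h1 s, Finset.prod_mul_distrib, Finset.prod_mul_distrib,
      hPA, hPB, Finset.prod_inv_distrib, one_mul, one_mul]
  obtain ⟨W, hW, hyW⟩ := hmain π Q (fun σ => a (Sum.inl σ)) (fun t σ => a (Sum.inr ⟨t, σ⟩)) hQ1
    (fun σ i => hbd _ i) (fun t σ i => hbd _ i)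
    (by
      rw [Real.rpow_neg hQ0.le, Real.rpow_one, ← hpr, Fintype.prod_sum_type, Fintype.prod_sigma])
    ![u, v]
    (by
      intro k
      fin_cases k
      · exact hu1
      · exact hv1)
    (by
      intro σ i
      have h1 := val_norm (π (Sum.inl σ)) (σ u) (σ v) (by rw [← map_add, huv, map_one]) i
      rw [Fin.sum_univ_two] at h1 ⊢
      exact h1)
    (by
      intro t σ i
      have h1 := val_norm (π (Sum.inr ⟨t, σ⟩)) (σ u) (σ v) (by rw [← map_add, huv, map_one]) i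
      rw [Fin.sum_univ_two] at h1 ⊢
      exact h1)
  exact Set.mem_iUnion.2 ⟨π, Set.mem_iUnion₂.2 ⟨W, hW, hyW⟩⟩

end Pool.Agent.Helper87.UE
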